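import Pool.Agent.W879.GW.Par

/-!
# The graph of the addition and multiplication tables of a finite ring
-/

set_option autoImplicit false
set_option linter.unusedSectionVars false

namespace Pool.Agent.U279.CR

open Pool.Agent.W185.SRG Pool.Agent.W185.LSQ Pool.Agent.W879.GW

/-- The graph of a pair of tables `a`, `m` on the set `Q`. There are two vertices for every pair of
elements: `inl p` (a cell of the table `a`) and `inr p` (a cell of the table `m`). Distinct cells of
`a` are adjacent if they lie in the same row or column or contain the same element; a cell of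
`a` and a cell of `m` are adjacent if they lie in the same row or column or contain the same
element; cells of `m` are not adjacent. -/
def tabGraph {Q : Type} (a m : Q → Q → Q) : SimpleGraph ((Q × Q) ⊕ (Q × Q)) where
  Adj u v := match u, v with
    | Sum.inl p, Sum.inl q => p ≠ q ∧ (p.1 = q.1 ∨ p.2 = q.2 ∨ a p.1 p.2 = a q.1 q.2)
    | Sum.inl p, Sum.inr q => p.1 = q.1 ∨ p.2 = q.2 ∨ a p.1 p.2 = m q.1 q.2
    | Sum.inr q, Sum.inl p => p.1 = q.1 ∨ p.2 = q.2 ∨ a p.1 p.2 = m q.1 q.2
    | Sum.inr _, Sum.inr _ => False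
  symm := ⟨by
    rintro (p | p) (q | q) h
    · exact ⟨h.1.symm, h.2.imp Eq.symm (Or.imp Eq.symm Eq.symm)⟩
    · exact h
    · exact h
    · exact h⟩
  loopless := ⟨by
    rintro (p | p) h
    · exact h.1 rfl
    · exact h⟩

/-- The graph of the addition table and the multiplication table of a ring. -/
def ringGraph (R : Type) [Add R] [Mul R] : SimpleGraph ((R × R) ⊕ (R × R)) :=
  tabGraph (fun a b : R => a + b) (fun a b : R => a * b)

theorem adj_ll {Q : Type} (a m : Q → Q → Q) (p q : Q × Q) :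
    (tabGraph a m).Adj (Sum.inl p) (Sum.inl q) ↔
      p ≠ q ∧ (p.1 = q.1 ∨ p.2 = q.2 ∨ a p.1 p.2 = a q.1 q.2) := Iff.rfl

theorem adj_lr {Q : Type} (a m : Q → Q → Q) (p q : Q × Q) :
    (tabGraph a m).Adj (Sum.inl p) (Sum.inr q) ↔
      (p.1 = q.1 ∨ p.2 = q.2 ∨ a p.1 p.2 = m q.1 q.2) := Iff.rfl

theorem adj_rl {Q : Type} (a m : Q → Q → Q) (p q : Q × Q) :
    (tabGraph a m).Adj (Sum.inr q) (Sum.inl p) ↔
      (p.1 = q.1 ∨ p.2 = q.2 ∨ a p.1 p.2 = m q.1 q.2) := Iff.rfl

theorem adj_rr {Q : Type} (a m : Q → Q → Q) (p q : Q × Q) :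
    ¬ (tabGraph a m).Adj (Sum.inr q) (Sum.inr p) := fun h => h

theorem adj_lr' {Q : Type} (a m : Q → Q → Q) (p q : Q × Q) :
    (tabGraph a m).Adj (Sum.inl p) (Sum.inr q) ↔ ∃ i, co3 a i p = co3 m i q := by
  rw [adj_lr]
  constructor
  · rintro (h | h | h)
    · exact ⟨0, h⟩
    · exact ⟨1, h⟩
    · exact ⟨2, h⟩
  · rintro ⟨i, hi⟩
    fin_cases i
    · exact Or.inl hi
    · exact Or.inr (Or.inl hi)
    · exact Or.inr (Or.inr hi)

section deg

variable {R : Type} [CommRing R] [Fintype R]

theorem deg_inr (q : R × R) :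
    Nat.card ((ringGraph R).neighborSet (Sum.inr q)) ≤ Fintype.card R * 3 := by
  classical
  let g : R × Fin 3 → (R × R) ⊕ (R × R) := fun x =>
    Sum.inl ((![(q.1, x.1), (x.1, q.2), (x.1, q.1 * q.2 - x.1)] : Fin 3 → R × R) x.2)
  have h1 : (ringGraph R).neighborSet (Sum.inr q) ⊆ Set.range g := by
    rintro (p | p) hp
    · have hp' : p.1 = q.1 ∨ p.2 = q.2 ∨ p.1 + p.2 = q.1 * q.2 := hp
      rcases hp' with h | h | h
      · exact ⟨(p.2, 0), congrArg Sum.inl (Prod.ext h.symm rfl)⟩
      · exact ⟨(p.1, 1), congrArg Sum.inl (Prod.ext rfl h.symm)⟩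
      · refine ⟨(p.1, 2), congrArg Sum.inl (Prod.ext rfl ?_)⟩
        show q.1 * q.2 - p.1 = p.2
        rw [← h]
        ring
    · exact absurd hp (adj_rr (fun a b : R => a + b) (fun a b : R => a * b) p q)
  have h2 : Nat.card ((ringGraph R).neighborSet (Sum.inr q)) ≤ Nat.card (Set.range g) :=
    Nat.card_mono (Set.toFinite _) h1
  refine h2.trans ?_
  have h3 : Nat.card (Set.range g) ≤ Nat.card (R × Fin 3) :=
    Finite.card_range_le g
  refine h3.trans (le_of_eq ?_)
  rw [Nat.card_eq_fintype_card, Fintype.card_prod, Fintype.card_fin]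

theorem deg_inl (p : R × R) (hR : 4 ≤ Fintype.card R) :
    Fintype.card R * 3 < Nat.card ((ringGraph R).neighborSet (Sum.inl p)) := by
  classical
  let g : R ⊕ ({t : R // t ≠ 0} × Fin 3) → (ringGraph R).neighborSet (Sum.inl p) :=
    Sum.elim (fun r => ⟨Sum.inr (p.1, r), Or.inl rfl⟩)
      (fun x => match x with
        | (t, 0) => ⟨Sum.inl (p.1, p.2 + t), ⟨fun h => t.2 (by
            have h1 := congrArg Prod.snd h
            have h2 : p.2 = p.2 + (t : R) := h1
            exact (left_eq_add.1 h2)), Or.inl rfl⟩⟩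
        | (t, 1) => ⟨Sum.inl (p.1 + t, p.2), ⟨fun h => t.2 (by
            have h1 := congrArg Prod.fst h
            have h2 : p.1 = p.1 + (t : R) := h1
            exact (left_eq_add.1 h2)), Or.inr (Or.inl rfl)⟩⟩
        | (t, 2) => ⟨Sum.inl (p.1 + t, p.2 - t), ⟨fun h => t.2 (by
            have h1 := congrArg Prod.fst h
            have h2 : p.1 = p.1 + (t : R) := h1
            exact (left_eq_add.1 h2)), Or.inr (Or.inr (by
              show p.1 + p.2 = p.1 + t + (p.2 - t)
              ring))⟩⟩)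
  have hg : Function.Injective g := by
    rintro (r | ⟨t, i⟩) (r' | ⟨t', j⟩) h
    · have h1 := congrArg Subtype.val h
      have h2 : (Sum.inr (p.1, r) : (R × R) ⊕ (R × R)) = Sum.inr (p.1, r') := h1
      have h3 := Sum.inr.inj h2
      exact congrArg Sum.inl (congrArg Prod.snd h3)
    · exfalso
      have h1 := congrArg Subtype.val h
      fin_cases j
      · exact Sum.inr_ne_inl h1
      · exact Sum.inr_ne_inl h1
      · exact Sum.inr_ne_inl h1
    · exfalso
      have h1 := congrArg Subtype.val h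
      fin_cases i
      · exact Sum.inl_ne_inr h1
      · exact Sum.inl_ne_inr h1
      · exact Sum.inl_ne_inr h1
    · have h1 := congrArg Subtype.val h
      have ht := t.2
      have ht' := t'.2
      fin_cases i <;> fin_cases j
      · have h2 : (p.1, p.2 + (t : R)) = (p.1, p.2 + (t' : R)) := Sum.inl.inj h1
        have h3 := add_left_cancel (congrArg Prod.snd h2)
        have h4 : t = t' := Subtype.ext h3
        rw [h4]
      · exfalso
        have h2 : (p.1, p.2 + (t : R)) = (p.1 + (t' : R), p.2) := Sum.inl.inj h1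
        have h3 : p.1 = p.1 + (t' : R) := congrArg Prod.fst h2
        exact ht' (left_eq_add.1 h3)
      · exfalso
        have h2 : (p.1, p.2 + (t : R)) = (p.1 + (t' : R), p.2 - t') := Sum.inl.inj h1
        have h3 : p.1 = p.1 + (t' : R) := congrArg Prod.fst h2
        exact ht' (left_eq_add.1 h3)
      · exfalso
        have h2 : (p.1 + (t : R), p.2) = (p.1, p.2 + (t' : R)) := Sum.inl.inj h1
        have h3 : p.2 = p.2 + (t' : R) := congrArg Prod.snd h2
        exact ht' (left_eq_add.1 h3)
      · have h2 : (p.1 + (t : R), p.2) = (p.1 + (t' : R), p.2) := Sum.inl.inj h1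
        have h3 := add_left_cancel (congrArg Prod.fst h2)
        have h4 : t = t' := Subtype.ext h3
        rw [h4]
      · exfalso
        have h2 : (p.1 + (t : R), p.2) = (p.1 + (t' : R), p.2 - t') := Sum.inl.inj h1
        have h3 : p.2 = p.2 - (t' : R) := congrArg Prod.snd h2
        exact ht' (sub_eq_self.1 h3.symm)
      · exfalso
        have h2 : (p.1 + (t : R), p.2 - (t : R)) = (p.1, p.2 + (t' : R)) := Sum.inl.inj h1
        have h3 : p.1 + (t : R) = p.1 := congrArg Prod.fst h2
        exact ht (left_eq_add.1 h3.symm)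
      · exfalso
        have h2 : (p.1 + (t : R), p.2 - (t : R)) = (p.1 + (t' : R), p.2) := Sum.inl.inj h1
        have h3 : p.2 - (t : R) = p.2 := congrArg Prod.snd h2
        exact ht (sub_eq_self.1 h3)
      · have h2 : (p.1 + (t : R), p.2 - (t : R)) = (p.1 + (t' : R), p.2 - (t' : R)) :=
          Sum.inl.inj h1
        have h3 := add_left_cancel (congrArg Prod.fst h2)
        have h4 : t = t' := Subtype.ext h3
        rw [h4]
  have h1 := Nat.card_le_card_of_injective g hg
  have h2 : Fintype.card {t : R // t ≠ 0} = Fintype.card R - 1 := by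
    have h3 := Fintype.card_subtype_compl (fun t : R => t = 0)
    rw [Fintype.card_subtype_eq] at h3
    exact h3
  rw [Nat.card_eq_fintype_card, Fintype.card_sum, Fintype.card_prod, Fintype.card_fin, h2] at h1
  omega

end deg

section iso

variable {R S : Type} [CommRing R] [CommRing S]

/-- The algebra at the end. -/
theorem iso_of_tables (α β γ : R → S) (hα : Function.Bijective α) (hβ : Function.Bijective β)
    (h1 : ∀ x y, γ (x + y) = α x + β y) (h2 : ∀ x y, γ (x * y) = α x * β y) :
    Nonempty (R ≃+* S) := by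
  have e1 : ∀ x, α x * β 0 = γ 0 := by
    intro x
    rw [← h2, mul_zero]
  have e2 : γ 0 = 0 := by
    obtain ⟨x, hx⟩ := hα.2 0
    rw [← e1 x, hx, zero_mul]
  have e3 : β 0 = 0 := by
    obtain ⟨x, hx⟩ := hα.2 1
    have := e1 x
    rwa [hx, one_mul, e2] at this
  have e4 : α 0 = 0 := by
    obtain ⟨y, hy⟩ := hβ.2 1
    have := h2 0 y
    rw [zero_mul, e2, hy, mul_one] at this
    exact this.symm
  have e5 : ∀ x, γ x = α x := by
    intro x
    have := h1 x 0
    rwa [add_zero, e3, add_zero] at this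
  have e6 : ∀ x, γ x = β x := by
    intro x
    have := h1 0 x
    rwa [zero_add, e4, zero_add] at this
  refine ⟨RingEquiv.ofBijective (⟨⟨⟨α, ?_⟩, ?_⟩, ?_, ?_⟩ : R →+* S) hα⟩
  · -- map one
    obtain ⟨x, hx⟩ := hα.2 1
    have h3 := h2 x 1
    rw [mul_one, e5, hx, one_mul, ← e6, e5] at h3
    exact h3.symm
  · intro x y
    have := h2 x y
    rw [e5, ← e6, e5] at this
    exact this
  · exact e4
  · intro x y
    have := h1 x y
    rw [e5, ← e6, e5] at this
    exact this

variable [Fintype R] [Fintype S]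

theorem card_nb (Φ : ringGraph R ≃g ringGraph S) (v : (R × R) ⊕ (R × R)) :
    Nat.card ((ringGraph R).neighborSet v) = Nat.card ((ringGraph S).neighborSet (Φ v)) :=
  Nat.card_congr (Φ.mapNeighborSet v)

theorem map_inl (hcard : Fintype.card R = Fintype.card S) (h4 : 4 ≤ Fintype.card S)
    (Φ : ringGraph R ≃g ringGraph S) (p : R × R) : ∃ p', Φ (Sum.inl p) = Sum.inl p' := by
  rcases h : Φ (Sum.inl p) with p' | q'
  · exact ⟨p', rfl⟩
  · exfalso
    have h1 := card_nb Φ (Sum.inl p)
    rw [h] at h1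
    have h2 := deg_inl p (by omega)
    have h3 := deg_inr q'
    omega

theorem map_inr (hcard : Fintype.card R = Fintype.card S) (h4 : 4 ≤ Fintype.card S)
    (Φ : ringGraph R ≃g ringGraph S) (p : R × R) : ∃ p', Φ (Sum.inr p) = Sum.inr p' := by
  rcases h : Φ (Sum.inr p) with p' | q'
  · exfalso
    have h1 := card_nb Φ (Sum.inr p)
    rw [h] at h1
    have h2 := deg_inl p' h4
    have h3 := deg_inr p
    omega
  · exact ⟨q', rfl⟩

theorem ring_iso_of_graph (hcard : Fintype.card R = Fintype.card S) (h5 : 5 ≤ Fintype.card S)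
    (Φ : ringGraph R ≃g ringGraph S) : Nonempty (R ≃+* S) := by
  classical
  choose F hF using map_inl hcard (by omega) Φ
  choose G hG using map_inr hcard (by omega) Φ
  choose F' hF' using map_inl hcard.symm (by omega) Φ.symm
  have hFF' : ∀ p, F' (F p) = p := by
    intro p
    have h1 := hF' (F p)
    rw [← hF p] at h1
    have h2 : Φ.symm (Φ (Sum.inl p)) = Sum.inl p := Φ.symm_apply_apply _
    rw [h2] at h1
    exact (Sum.inl.inj h1).symm
  have hF'F : ∀ p, F (F' p) = p := by
    intro p
    have h1 := hF (F' p)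
    rw [← hF' p] at h1
    have h2 : Φ (Φ.symm (Sum.inl p)) = Sum.inl p := Φ.apply_symm_apply _
    rw [h2] at h1
    exact (Sum.inl.inj h1).symm
  let e : R ≃ S := Fintype.equivOfCardEq hcard
  let L : S → S → S := fun a b => e (e.symm a + e.symm b)
  let Φ1 : latinGraph (fun a b : R => a + b) ≃g latinGraph (fun a b : S => a + b) :=
    { toFun := F
      invFun := F'
      left_inv := hFF'
      right_inv := hF'F
      map_rel_iff' := by
        intro p q
        have h1 := Φ.map_rel_iff' (a := Sum.inl p) (b := Sum.inl q)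
        have h2 : (ringGraph S).Adj (Φ (Sum.inl p)) (Φ (Sum.inl q)) ↔
          (ringGraph R).Adj (Sum.inl p) (Sum.inl q) := h1
        rw [hF p, hF q] at h2
        exact h2 }
  let Ψ : latinGraph L ≃g latinGraph (fun a b : S => a + b) :=
    (latinGraph_transport e (fun a b : R => a + b)).symm.trans Φ1
  have n1 : IsNet (co3 L) := by
    apply co3_isNet
    · intro a b c h
      exact e.symm.injective (add_left_cancel (e.injective h))
    · intro a b c h
      exact e.symm.injective (add_right_cancel (e.injective h))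
  have n2 : IsNet (co3 fun a b : S => a + b) := by
    apply co3_isNet
    · intro a b c h
      exact add_left_cancel h
    · intro a b c h
      exact add_right_cancel h
  have hΨ : ∀ p : S × S, Ψ p = F (e.symm p.1, e.symm p.2) := fun p => rfl
  obtain ⟨Ψ', hΨ'⟩ : ∃ Ψ' : netGraph (co3 L) ≃g netGraph (co3 fun a b : S => a + b),
      ∀ p, Ψ' p = Ψ p := by
    rw [← latinGraph_eq, ← latinGraph_eq]
    exact ⟨Ψ, fun _ => rfl⟩
  obtain ⟨σ, gg, hg⟩ := n1.iso_lines n2 h5 Ψ'
  let u : Fin 3 → R → S := fun i a => gg i (e a)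
  have hu : ∀ i, Function.Bijective (u i) := fun i => (gg i).bijective.comp e.bijective
  have hA : ∀ i (p : R × R), co3 (fun a b : S => a + b) (σ i) (F p) =
      u i (co3 (fun a b : R => a + b) i p) := by
    intro i p
    have h := hg i (e p.1, e p.2)
    rw [hΨ', hΨ] at h
    have h0 : ((e.symm (e p.1), e.symm (e p.2)) : R × R) = p := by
      rw [Equiv.symm_apply_apply, Equiv.symm_apply_apply]
    have h1 : F (e.symm (e p.1, e p.2).1, e.symm (e p.1, e p.2).2) = F p := congrArg F h0
    rw [h1] at h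
    rw [h]
    show gg i _ = gg i _
    congr 1
    fin_cases i
    · rfl
    · rfl
    · show e (e.symm (e p.1) + e.symm (e p.2)) = e (p.1 + p.2)
      rw [Equiv.symm_apply_apply, Equiv.symm_apply_apply]
  have hB : ∀ i (q : R × R), co3 (fun a b : S => a * b) (σ i) (G q) =
      u i (co3 (fun a b : R => a * b) i q) := by
    intro i q
    by_contra hne
    obtain ⟨j0, hj0⟩ : ∃ j0 : Fin 3, σ i ≠ j0 := by
      have : ∀ x : Fin 3, ∃ y : Fin 3, x ≠ y := by decide
      exact this _
    have hex : ∀ c : S, ∃ p' : S × S, co3 (fun a b : S => a + b) (σ i) p' =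
        u i (co3 (fun a b : R => a * b) i q) ∧ co3 (fun a b : S => a + b) j0 p' = c :=
      fun c => n2.exists hj0 _ c
    choose P hP1 hP2 using hex
    have hex2 : ∀ c : S, ∃ j : Fin 3, j ≠ σ i ∧ co3 (fun a b : S => a + b) j (P c) =
        co3 (fun a b : S => a * b) j (G q) := by
      intro c
      have h1 := hA i (F' (P c))
      rw [hF'F, hP1] at h1
      have h2 := (hu i).1 h1
      have h3 : (ringGraph R).Adj (Sum.inl (F' (P c))) (Sum.inr q) :=
        (adj_lr' _ _ _ _).2 ⟨i, h2.symm⟩
      have h4 : (ringGraph S).Adj (Φ (Sum.inl (F' (P c)))) (Φ (Sum.inr q)) :=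
        Φ.map_rel_iff'.2 h3
      rw [hF, hG, hF'F] at h4
      obtain ⟨j, hj⟩ := (adj_lr' _ _ _ _).1 h4
      refine ⟨j, ?_, hj⟩
      rintro rfl
      apply hne
      rw [← hj, hP1]
    choose J hJ1 hJ2 using hex2
    have hinj : Function.Injective J := by
      intro c c' h
      have h1 : P c = P c' := by
        refine n2.eq (i := σ i) (j := J c) (hJ1 c).symm ?_ ?_
        · rw [hP1, hP1]
        · rw [hJ2]
          rw [h, hJ2]
      rw [← hP2 c, ← hP2 c', h1]
    have h6 := Fintype.card_le_of_injective J hinj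
    rw [Fintype.card_fin] at h6
    omega
  have hne01 : σ 0 ≠ σ 1 := fun h => absurd (σ.injective h) (by decide)
  have hne02 : σ 0 ≠ σ 2 := fun h => absurd (σ.injective h) (by decide)
  have hne12 : σ 1 ≠ σ 2 := fun h => absurd (σ.injective h) (by decide)
  have a0 := fun p => hA 0 p
  have a1 := fun p => hA 1 p
  have a2 := fun p => hA 2 p
  have b0 := fun p => hB 0 p
  have b1 := fun p => hB 1 p
  have b2 := fun p => hB 2 p
  have cR0 : ∀ (f : R → R → R) (p : R × R), co3 f 0 p = p.1 := fun _ _ => rfl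
  have cR1 : ∀ (f : R → R → R) (p : R × R), co3 f 1 p = p.2 := fun _ _ => rfl
  have cR2 : ∀ (f : R → R → R) (p : R × R), co3 f 2 p = f p.1 p.2 := fun _ _ => rfl
  have cS0 : ∀ (f : S → S → S) (p : S × S), co3 f 0 p = p.1 := fun _ _ => rfl
  have cS1 : ∀ (f : S → S → S) (p : S × S), co3 f 1 p = p.2 := fun _ _ => rfl
  have cS2 : ∀ (f : S → S → S) (p : S × S), co3 f 2 p = f p.1 p.2 := fun _ _ => rfl
  simp only [cR0, cR1, cR2] at a0 a1 a2 b0 b1 b2
  have hcS : Nontrivial S := by
    apply Fintype.one_lt_card_iff_nontrivial.1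
    omega
  have hcR : Nontrivial R := by
    apply Fintype.one_lt_card_iff_nontrivial.1
    omega
  obtain ⟨x1, x2, hx⟩ := exists_pair_ne R
  have hc : ∀ x : Fin 3, x = 0 ∨ x = 1 ∨ x = 2 := by decide
  rcases hc (σ 0) with e0 | e0 | e0 <;> rcases hc (σ 1) with e1 | e1 | e1 <;>
    rcases hc (σ 2) with e2 | e2 | e2 <;>
    first
    | exact absurd (e0.trans e1.symm) hne01
    | exact absurd (e0.trans e2.symm) hne02
    | exact absurd (e1.trans e2.symm) hne12
    | skip
  · -- identity
    simp only [e0, e1, e2, cS0, cS1, cS2] at a0 a1 a2 b0 b1 b2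
    refine iso_of_tables (u 0) (u 1) (u 2) (hu 0) (hu 1) (fun x y => ?_) fun x y => ?_
    · rw [← a2 (x, y), a0, a1]
    · rw [← b2 (x, y), b0, b1]
  · -- 0 -> 0, 1 -> 2, 2 -> 1
    exfalso
    simp only [e0, e1, e2, cS0, cS1, cS2] at b0 b1 b2
    have h1 : ∀ y, u 1 y = u 0 0 * u 2 0 := by
      intro y
      rw [← b1 (0, y), b0, b2]
      simp
    exact hx ((hu 1).1 ((h1 x1).trans (h1 x2).symm))
  · -- swap of 0 and 1
    simp only [e0, e1, e2, cS0, cS1, cS2] at a0 a1 a2 b0 b1 b2
    refine iso_of_tables (u 0) (u 1) (u 2) (hu 0) (hu 1) (fun x y => ?_) fun x y => ?_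
    · rw [← a2 (x, y), a0, a1, add_comm]
    · rw [← b2 (x, y), b0, b1, mul_comm]
  · -- 0 -> 1 -> 2 -> 0
    exfalso
    simp only [e0, e1, e2, cS0, cS1, cS2] at b0 b1 b2
    have h1 : ∀ y, u 1 y = u 2 0 * u 0 0 := by
      intro y
      rw [← b1 (0, y), b0, b2]
      simp
    exact hx ((hu 1).1 ((h1 x1).trans (h1 x2).symm))
  · -- 0 -> 2 -> 1 -> 0
    exfalso
    simp only [e0, e1, e2, cS0, cS1, cS2] at b0 b1 b2
    have h1 : ∀ x, u 0 x = u 1 0 * u 2 0 := by
      intro x
      rw [← b0 (x, 0), b1, b2]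
      simp
    exact hx ((hu 0).1 ((h1 x1).trans (h1 x2).symm))
  · -- swap of 0 and 2
    exfalso
    simp only [e0, e1, e2, cS0, cS1, cS2] at b0 b1 b2
    have h1 : ∀ x, u 0 x = u 2 0 * u 1 0 := by
      intro x
      rw [← b0 (x, 0), b1, b2]
      simp
    exact hx ((hu 0).1 ((h1 x1).trans (h1 x2).symm))

end iso

end Pool.Agent.U279.CR
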