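import Pool.Agent.U279.CR.NonIso
import Pool.Agent.U279.CR.Graph
import Pool.Agent.TH658.Sos.ImGrp
import Pool.Agent.Q245.STS.Wl

/-!
# The affine system of the two rings and the action on the vertices of their graphs
-/

set_option autoImplicit false
set_option linter.unusedSectionVars false

namespace Pool.Agent.U279.CR

open Module Pool.Agent.TH658.Sos
open Pool.Agent.W879.GW (tot tot_apply tot_single evB evB_apply Expands)

section

variable {F A : Type} [Field F] [AddCommGroup A] [Module F A] {g : ℕ}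
  {B : Submodule F (Fin g → Dual F A)} {N N' : A →ₗ[F] (Fin g → Dual F A)}

/-- The shear. -/
def sh (M : A →ₗ[F] B) (a : RE (bN B N)) : RE (bN B N') :=
  mk _ (fc a) (xc a, cc a + M (xc a)) (zc a)

/-- The inverse shear. -/
def shn (M : A →ₗ[F] B) (a : RE (bN B N)) : RE (bN B N') :=
  mk _ (fc a) (xc a, cc a - M (xc a)) (zc a)

theorem shn_sh (M : A →ₗ[F] B) (a : RE (bN B N)) :
    shn M (sh M a : RE (bN B N')) = a := by
  refine RE_ext4 rfl rfl ?_ rfl
  show cc a + M (xc a) - M (xc a) = cc a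
  abel

theorem sh_shn (M : A →ₗ[F] B) (a : RE (bN B N)) :
    sh M (shn M a : RE (bN B N')) = a := by
  refine RE_ext4 rfl rfl ?_ rfl
  show cc a - M (xc a) + M (xc a) = cc a
  abel

theorem sh_inj (M : A →ₗ[F] B) :
    Function.Injective (sh M : RE (bN B N) → RE (bN B N')) := by
  intro a b h
  rw [← shn_sh (N' := N') M a, h, shn_sh]

theorem sh_add (M : A →ₗ[F] B) (a b : RE (bN B N)) :
    (sh M (a + b) : RE (bN B N')) = sh M a + sh M b := by
  refine RE_ext4 rfl rfl ?_ rfl
  show cc a + cc b + M (xc a + xc b) = cc a + M (xc a) + (cc b + M (xc b))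
  rw [map_add]
  abel

theorem sh_mul (M : A →ₗ[F] B) (a b : RE (bN B N))
    (h : TS (cB M) (xc a) (xc b) = TS N (xc a) (xc b)) :
    (sh M (a * b) : RE (bN B 0)) = sh M a * sh M b := by
  refine RE_ext4 rfl rfl ?_ ?_
  · show (fc a • cc b + fc b • cc a) + M (fc a • xc b + fc b • xc a) =
      fc a • (cc b + M (xc b)) + fc b • (cc a + M (xc a))
    rw [map_add, map_smul, map_smul, smul_add, smul_add]
    abel
  · show zc (a * b) = fc a • zc b + fc b • zc a + (bN B 0).fn (xc a, cc a + M (xc a))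
      (xc b, cc b + M (xc b))
    rw [zc_mul, bN_apply, bN_apply]
    show fc a • zc b + fc b • zc a + (TS N (xc a) (xc b) + (evB (cc a : Fin g → Dual F A) (xc b) +
      evB (cc b : Fin g → Dual F A) (xc a))) = fc a • zc b + fc b • zc a +
      (TS (0 : A →ₗ[F] (Fin g → Dual F A)) (xc a) (xc b) +
      (evB ((cc a + M (xc a) : B) : Fin g → Dual F A) (xc b) +
      evB ((cc b + M (xc b) : B) : Fin g → Dual F A) (xc a)))
    rw [← h]
    have h2 : TS (cB M) (xc a) (xc b) = evB ((M (xc a) : B) : Fin g → Dual F A) (xc b) +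
      evB ((M (xc b) : B) : Fin g → Dual F A) (xc a) := rfl
    rw [h2, Submodule.coe_add, Submodule.coe_add, map_add, map_add, LinearMap.add_apply,
      LinearMap.add_apply, map_zero, LinearMap.zero_apply, LinearMap.zero_apply]
    abel

/-- The shear of the cells. -/
def sh2 (M : A →ₗ[F] B) (p : RE (bN B N) × RE (bN B N)) : RE (bN B N') × RE (bN B N') :=
  (sh M p.1, sh M p.2)

/-- The inverse shear of the cells. -/
def sh2n (M : A →ₗ[F] B) (p : RE (bN B N) × RE (bN B N)) : RE (bN B N') × RE (bN B N') :=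
  (shn M p.1, shn M p.2)

theorem sh2n_sh2 (M : A →ₗ[F] B) (p : RE (bN B N) × RE (bN B N)) :
    sh2n M (sh2 M p : RE (bN B N') × RE (bN B N')) = p := Prod.ext (shn_sh _ _) (shn_sh _ _)

theorem sh2_sh2n (M : A →ₗ[F] B) (p : RE (bN B N) × RE (bN B N)) :
    sh2 M (sh2n M p : RE (bN B N') × RE (bN B N')) = p := Prod.ext (sh_shn _ _) (sh_shn _ _)

/-- The shear of the vertices. -/
def shV (M : A →ₗ[F] B) : ((RE (bN B N) × RE (bN B N)) ⊕ (RE (bN B N) × RE (bN B N))) ≃
    ((RE (bN B N') × RE (bN B N')) ⊕ (RE (bN B N') × RE (bN B N'))) where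
  toFun := Sum.map (sh2 M) (sh2 M)
  invFun := Sum.map (sh2n M) (sh2n M)
  left_inv := by
    rintro (p | p)
    · exact congrArg Sum.inl (sh2n_sh2 M p)
    · exact congrArg Sum.inr (sh2n_sh2 M p)
  right_inv := by
    rintro (p | p)
    · exact congrArg Sum.inl (sh2_sh2n M p)
    · exact congrArg Sum.inr (sh2_sh2n M p)

/-- The pair of elements of a vertex. -/
def pr {R : Type} (u : (R × R) ⊕ (R × R)) : R × R := Sum.elim id id u

theorem pr_shV (M : A →ₗ[F] B) (u : (RE (bN B N) × RE (bN B N)) ⊕ (RE (bN B N) × RE (bN B N))) :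
    pr (shV M u : (RE (bN B N') × RE (bN B N')) ⊕ (RE (bN B N') × RE (bN B N'))) =
      sh2 M (pr u) := by
  rcases u with p | p
  · rfl
  · rfl

end

section

variable {F A : Type} [Field F] [AddCommGroup A] [Module F A] {g : ℕ}
  [FiniteDimensional F A] {q : Fin g → (Dual F A →ₗ[F] A)}

/-- The constraints as homomorphisms. -/
noncomputable def thS {B : Submodule F (Fin g → Dual F A)}
    (ξ : Dual F (A →ₗ[F] A →ₗ[F] (Fin g → F))) : (A →ₗ[F] B) →+ F :=
  AddMonoidHom.mk' (fun Z => ξ (TS (cB Z))) fun Z Z' => by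
    rw [cB_add, map_add, map_add]

theorem thS_apply {B : Submodule F (Fin g → Dual F A)}
    (ξ : Dual F (A →ₗ[F] A →ₗ[F] (Fin g → F))) (Z : A →ₗ[F] B) : thS ξ Z = ξ (TS (cB Z)) := rfl

/-- The maps with the constraints of the levels. -/
noncomputable def crSys (hsym : ∀ (i : Fin g) (φ ψ : Dual F A), ψ (q i φ) = φ (q i ψ)) {K : ℕ}
    (hE : Expands q (4 * K)) (B : Submodule F (Fin g → Dual F A))
    (hB : B = LinearMap.ker (tot q)) (φ₀ : Dual F A) (c₀ : Fin g → Dual F A) :
    Sys (A →ₗ[F] B) (Submodule F A) where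
  N W :=
    { carrier := {Z | ∀ x ∈ W, ∀ i y, om x i y Z = 0}
      add_mem' := fun {Z Z'} h h' x hx i y => by
        rw [map_add, h x hx, h' x hx, add_zero]
      zero_mem' := fun x _ i y => map_zero _
      neg_mem' := fun {Z} h x hx i y => by rw [map_neg, h x hx, neg_zero] }
  D W :=
    { carrier := {Z | ∀ ξ, InS q K ξ W → thS ξ Z = 0}
      add_mem' := fun {Z Z'} h h' ξ hξ => by
        rw [map_add, h ξ hξ, h' ξ hξ, add_zero]
      zero_mem' := fun ξ _ => map_zero _
      neg_mem' := fun {Z} h ξ hξ => by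
        rw [map_neg, h ξ hξ, neg_zero] }
  Sol W := {M | ∀ ξ, InS q K ξ W → thS ξ M = ξ (TS (φ₀.smulRight c₀))}
  size W := finrank F W
  K := K
  N_anti W W' h Z hZ x hx := hZ x (h hx)
  D_anti W W' h Z hZ ξ hξ := hZ ξ (hξ.mono h)
  Sol_anti W W' h M hM ξ hξ := hM ξ (hξ.mono h)
  sol_iff W M M' hM := by
    constructor
    · intro hM' ξ hξ
      rw [map_sub, hM ξ hξ, hM' ξ hξ, sub_self]
    · intro h ξ hξ
      have h1 := h ξ hξ
      rw [map_sub, hM ξ hξ] at h1
      exact sub_eq_zero.1 h1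
  size_bot := finrank_bot F A
  size_sup W W' := Submodule.finrank_add_le_finrank_add_finrank W W'
  nonempty W hW := by
    obtain ⟨M₁, h1, h2, h3⟩ := extendS hsym hE (TS (φ₀.smulRight c₀)) ⊥ W hW 0 (fun x => by simp)
      (fun ξ hξ => startS hsym hE φ₀ c₀ ξ hξ)
    have h1' : ∀ x, M₁ x ∈ B := by
      intro x
      rw [hB]
      exact h1 x
    refine ⟨LinearMap.codRestrict B M₁ h1', fun ξ hξ => ?_⟩
    have h4 : cB (LinearMap.codRestrict B M₁ h1') = M₁ := by
      ext x
      rfl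
    rw [thS_apply, h4]
    exact h3 ξ hξ
  extend W W' h hW' M hM := by
    have hBm : ∀ c ∈ B, tot q c = 0 := by
      intro c hc
      rw [hB] at hc
      exact LinearMap.mem_ker.1 hc
    obtain ⟨M₁, h1, h2, h3⟩ := extendS hsym hE (TS (φ₀.smulRight c₀)) W W' hW' (cB M)
      (fun x => hBm _ (M x).2) hM
    have h1' : ∀ x, M₁ x ∈ B := by
      intro x
      rw [hB]
      exact h1 x
    have h4 : cB (LinearMap.codRestrict B M₁ h1') = M₁ := by
      ext x
      rfl
    refine ⟨LinearMap.codRestrict B M₁ h1', fun ξ hξ => ?_, fun x hx i y => ?_⟩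
    · rw [thS_apply, h4]
      exact h3 ξ hξ
    · rw [map_sub, sub_eq_zero, om_apply, om_apply]
      have h5 : ((LinearMap.codRestrict B M₁ h1') x : Fin g → Dual F A) = M₁ x := rfl
      rw [h5, h2 x hx]
      rfl

/-- The level of a vertex. -/
def lvl {B : Submodule F (Fin g → Dual F A)} {N : A →ₗ[F] (Fin g → Dual F A)}
    (u : (RE (bN B N) × RE (bN B N)) ⊕ (RE (bN B N) × RE (bN B N))) : Submodule F A :=
  Submodule.span F {xc (pr u).1, xc (pr u).2}

/-- The bijections of the vertices. -/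
noncomputable def crAct (hsym : ∀ (i : Fin g) (φ ψ : Dual F A), ψ (q i φ) = φ (q i ψ)) {K : ℕ}
    (hK : 1 ≤ K) (hE : Expands q (4 * K)) (B : Submodule F (Fin g → Dual F A))
    (hB : B = LinearMap.ker (tot q)) (φ₀ : Dual F A) (c₀ : Fin g → Dual F A) :
    Act (crSys hsym hE B hB φ₀ c₀) (ringGraph (RE (bN B (φ₀.smulRight c₀))))
      (ringGraph (RE (bN B 0))) where
  b M := shV M
  lv u := lvl u
  lv' u := lvl u
  c := 2
  inv M n u hn := by
    have h1 : (M + n) (xc (pr u).1) = M (xc (pr u).1) := by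
      refine om_eq fun i y => ?_
      rw [map_add, hn _ (Submodule.subset_span (by simp)), add_zero]
    have h2 : (M + n) (xc (pr u).2) = M (xc (pr u).2) := by
      refine om_eq fun i y => ?_
      rw [map_add, hn _ (Submodule.subset_span (by simp)), add_zero]
    have h3 : (sh2 (M + n) (pr u) : RE (bN B 0) × RE (bN B 0)) = sh2 M (pr u) := by
      unfold sh2 sh
      rw [h1, h2]
    rcases u with p | p
    · exact congrArg Sum.inl h3
    · exact congrArg Sum.inr h3
  lev M u := by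
    show Submodule.span F {xc (pr (shV M u)).1, xc (pr (shV M u)).2} = _
    rw [pr_shV]
    rfl
  size u := by
    classical
    show finrank F (Submodule.span F {xc (pr u).1, xc (pr u).2}) ≤ 2
    have h6 := finrank_span_finset_le_card (R := F) ({xc (pr u).1, xc (pr u).2} : Finset A)
    have h7 : (({xc (pr u).1, xc (pr u).2} : Finset A) : Set A) = {xc (pr u).1, xc (pr u).2} := by
      simp
    unfold Set.finrank at h6
    rw [h7] at h6
    exact h6.trans Finset.card_le_two
  iso u u' M hM := by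
    have hmul : ∀ w, w = u ∨ w = u' → (sh M ((pr w).1 * (pr w).2) : RE (bN B 0)) =
        (sh M (pr w).1 : RE (bN B 0)) * sh M (pr w).2 := by
      intro w hw
      refine sh_mul M _ _ (eq_onS hK (TS (φ₀.smulRight c₀)) _ _ hM ?_ ?_)
      · rcases hw with rfl | rfl
        · exact Submodule.mem_sup_left (Submodule.subset_span (by simp))
        · exact Submodule.mem_sup_right (Submodule.subset_span (by simp))
      · rcases hw with rfl | rfl
        · exact Submodule.mem_sup_left (Submodule.subset_span (by simp))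
        · exact Submodule.mem_sup_right (Submodule.subset_span (by simp))
    have hinj : ∀ {a b : RE (bN B (φ₀.smulRight c₀))}, (sh M a : RE (bN B 0)) = sh M b ↔ a = b :=
      fun {a b} => ⟨fun h' => sh_inj M h', fun h' => congrArg (sh M) h'⟩
    rcases u with p | p <;> rcases u' with p' | p'
    · show (p ≠ p' ∧ (p.1 = p'.1 ∨ p.2 = p'.2 ∨ p.1 + p.2 = p'.1 + p'.2)) ↔
        (sh2 M p ≠ sh2 M p' ∧ ((sh M p.1 : RE (bN B 0)) = sh M p'.1 ∨
          (sh M p.2 : RE (bN B 0)) = sh M p'.2 ∨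
          (sh M p.1 : RE (bN B 0)) + sh M p.2 = sh M p'.1 + sh M p'.2))
      rw [← sh_add, ← sh_add, hinj, hinj, hinj]
      refine and_congr (not_congr ⟨fun h' => by rw [h'], fun h' => ?_⟩) Iff.rfl
      exact Prod.ext (sh_inj M (congrArg Prod.fst h')) (sh_inj M (congrArg Prod.snd h'))
    · show (p.1 = p'.1 ∨ p.2 = p'.2 ∨ p.1 + p.2 = p'.1 * p'.2) ↔
        ((sh M p.1 : RE (bN B 0)) = sh M p'.1 ∨ (sh M p.2 : RE (bN B 0)) = sh M p'.2 ∨
          (sh M p.1 : RE (bN B 0)) + sh M p.2 = sh M p'.1 * sh M p'.2)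
      have h1 : (sh M (p'.1 * p'.2) : RE (bN B 0)) = sh M p'.1 * sh M p'.2 := hmul _ (Or.inr rfl)
      rw [← sh_add, ← h1, hinj, hinj, hinj]
    · show (p'.1 = p.1 ∨ p'.2 = p.2 ∨ p'.1 + p'.2 = p.1 * p.2) ↔
        ((sh M p'.1 : RE (bN B 0)) = sh M p.1 ∨ (sh M p'.2 : RE (bN B 0)) = sh M p.2 ∨
          (sh M p'.1 : RE (bN B 0)) + sh M p'.2 = sh M p.1 * sh M p.2)
      have h1 : (sh M (p.1 * p.2) : RE (bN B 0)) = sh M p.1 * sh M p.2 := hmul _ (Or.inl rfl)
      rw [← sh_add, ← h1, hinj, hinj, hinj]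
    · exact Iff.rfl

theorem crAct_torsor (hsym : ∀ (i : Fin g) (φ ψ : Dual F A), ψ (q i φ) = φ (q i ψ)) {K : ℕ}
    (hK : 1 ≤ K) (hE : Expands q (4 * K)) (B : Submodule F (Fin g → Dual F A))
    (hB : B = LinearMap.ker (tot q)) (φ₀ : Dual F A) (c₀ : Fin g → Dual F A) :
    (crAct hsym hK hE B hB φ₀ c₀).Torsor := by
  have key : ∀ (M h : A →ₗ[F] B) (a : RE (bN B (φ₀.smulRight c₀))),
      (sh (M + h) a : RE (bN B 0)) =
        sh M (shn 0 (sh h a : RE (bN B 0)) : RE (bN B (φ₀.smulRight c₀))) := by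
    intro M h a
    refine RE_ext4 rfl rfl ?_ rfl
    show cc a + (M (xc a) + h (xc a)) = cc a + h (xc a) - 0 + M (xc a)
    abel
  intro M h u
  rcases u with p | p
  · exact congrArg Sum.inl (Prod.ext (key M h p.1) (key M h p.2))
  · exact congrArg Sum.inr (Prod.ext (key M h p.1) (key M h p.2))

end

end Pool.Agent.U279.CR
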