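import Pool.Agent.U279.CR.Act

/-!
# Finite commutative rings which are hard for the known methods
-/

set_option autoImplicit false
set_option linter.unusedSectionVars false

namespace Pool.Agent.U279.CR

open Module Pool.Agent.TH658.Sos
open Pool.Agent.W185.SRG (WLEquivalent)
open Pool.Agent.W879.GW (tot tot_apply tot_single evB evB_apply Expands exists_target)

/-- A commutative local ring of characteristic `p` in which all products of three nonunits are
zero. -/
def LocalCubeZero (p : ℕ) (R : Type) [CommRing R] : Prop :=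
  IsLocalRing R ∧ CharP R p ∧ ∀ x y z : R, ¬ IsUnit x → ¬ IsUnit y → ¬ IsUnit z → x * y * z = 0

theorem main_aux (p : ℕ) [Fact p.Prime] {A : Type} [AddCommGroup A] [Module (ZMod p) A] [Finite A]
    {q : Fin 6 → (Dual (ZMod p) A →ₗ[ZMod p] A)}
    (hsym : ∀ (i : Fin 6) (φ ψ : Dual (ZMod p) A), ψ (q i φ) = φ (q i ψ))
    (htr : ∀ (i : Fin 6) (N : A →ₗ[ZMod p] Dual (ZMod p) A), (∀ x y, N x y + N y x = 0) →
      LinearMap.trace (ZMod p) A (q i ∘ₗ N) = 0)
    {k m : ℕ} (hk : 1 ≤ k) (hm : 48 * k ≤ m) (hEm : Expands q m)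
    (hfr : finrank (ZMod p) A = 6 * m) :
    ∃ (R S : Type) (_ : CommRing R) (_ : CommRing S) (_ : Fintype R) (_ : Fintype S),
      Fintype.card R = p ^ (36 * m + 7) ∧ Fintype.card S = p ^ (36 * m + 7) ∧
      LocalCubeZero p R ∧ LocalCubeZero p S ∧ IsEmpty (R ≃+* S) ∧
      IsEmpty (ringGraph R ≃g ringGraph S) ∧
      WLEquivalent k (ringGraph R) (ringGraph S) ∧
      IMEquiv p k (ringGraph R) (ringGraph S) ∧
      (∀ (K : Type) [Field K], (p : K) ≠ 0 → ¬ PCRefutes K (ringGraph R) (ringGraph S) k) ∧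
      ¬ PosRefutes (ringGraph R) (ringGraph S) k := by
  classical
  have : FiniteDimensional (ZMod p) A := Module.Finite.of_finite
  have hE : Expands q (4 * (12 * k)) := fun u hu => hEm u (by omega)
  obtain ⟨φ₀, c₀, h0⟩ := exists_target hE (by omega) (by
    rw [hfr]
    omega)
  have hkerfr := finrank_kerS hsym hE (by omega)
  obtain ⟨B, hB⟩ : ∃ B : Submodule (ZMod p) (Fin 6 → Dual (ZMod p) A),
    B = LinearMap.ker (tot q) := ⟨_, rfl⟩
  have hfin : Finite (Dual (ZMod p) A) := Module.finite_of_finite (ZMod p)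
  have hfin2 : Finite (Fin 6 → Dual (ZMod p) A) := inferInstance
  have hfinB : Finite B := inferInstance
  have hfinM : Finite (A →ₗ[ZMod p] B) := Module.finite_of_finite (ZMod p)
  have hfinV : Finite (A × B) := inferInstance
  have : Fintype A := Fintype.ofFinite A
  have : Fintype B := Fintype.ofFinite B
  have hfrV : finrank (ZMod p) (A × B) = 36 * m := by
    rw [Module.finrank_prod, hB]
    omega
  have hp : p.Prime := Fact.out
  have hcard : ∀ N : A →ₗ[ZMod p] (Fin 6 → Dual (ZMod p) A),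
      Fintype.card (RE (bN B N)) = p ^ (36 * m + 7) := by
    intro N
    have h1 : Fintype.card (A × B) = p ^ (36 * m) := by
      rw [← Nat.card_eq_fintype_card, Module.natCard_eq_pow_finrank (K := ZMod p), Nat.card_zmod,
        hfrV]
    rw [card_RE, h1, Fintype.card_fun, ZMod.card, Fintype.card_fin, ← pow_add, ← pow_succ']
  have ham : finrank (ZMod p) A < (6 - 1) * (2 * m) := by
    rw [hfr]
    omega
  have hiso := not_iso hsym htr hEm (by norm_num) ham hB φ₀ c₀ h0
  have : Fintype (A →ₗ[ZMod p] B) := Fintype.ofFinite _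
  have hcX : ∃ m, Fintype.card (A →ₗ[ZMod p] B) = p ^ m := by
    refine ⟨finrank (ZMod p) (A →ₗ[ZMod p] B), ?_⟩
    rw [← Nat.card_eq_fintype_card, Module.natCard_eq_pow_finrank (K := ZMod p), Nat.card_zmod]
  have hK : 1 ≤ 12 * k := by omega
  let act := crAct hsym hK hE B hB φ₀ c₀
  have hT : act.Torsor := crAct_torsor hsym hK hE B hB φ₀ c₀
  have hloc : ∀ N : A →ₗ[ZMod p] (Fin 6 → Dual (ZMod p) A), LocalCubeZero p (RE (bN B N)) :=
    fun N => ⟨isLocalRing _, charP _ p, cube_zero⟩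
  refine ⟨RE (bN B (φ₀.smulRight c₀)), RE (bN B 0), inferInstance, inferInstance, inferInstance,
    inferInstance, hcard _, hcard _, hloc _, hloc _, hiso, ?_, ?_, ?_, ?_, ?_⟩
  · refine ⟨fun Φ => ?_⟩
    obtain ⟨θ⟩ := ring_iso_of_graph ((hcard _).trans (hcard 0).symm) (by
      rw [hcard 0]
      calc 5 ≤ 2 ^ 7 := by norm_num
        _ ≤ p ^ 7 := Nat.pow_le_pow_left hp.two_le 7
        _ ≤ p ^ (36 * m + 7) := Nat.pow_le_pow_right hp.pos (by omega)) Φ
    exact hiso.false θ
  · refine Pool.Agent.Q245.STS.wl_of_act act ?_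
    show 2 * (k + 1) ≤ 12 * k
    omega
  · refine act.imEquiv hT (fun K _ hpK => ?_) ?_ ?_
    · obtain ⟨m, hm⟩ := hcX
      rw [hm, Nat.cast_pow]
      exact pow_ne_zero _ hpK
    · show 4 * (2 * k) ≤ 12 * k
      omega
    · show 2 + 2 ≤ 12 * k
      omega
  · intro K _ hpK
    refine act.not_pcRefutes K ?_ (d := k) ?_
    · obtain ⟨m, hm⟩ := hcX
      rw [hm, Nat.cast_pow]
      exact pow_ne_zero _ hpK
    · show 3 * (2 * (k + 1)) ≤ 12 * k
      omega
  · refine act.not_posRefutes (d := k) ?_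
    show 3 * (2 * (k + 1)) ≤ 12 * k
    omega

theorem main (p : ℕ) (hp : p.Prime) (k m : ℕ) (hk : 1 ≤ k) (hm : 48 * k ≤ m) :
    ∃ (R S : Type) (_ : CommRing R) (_ : CommRing S) (_ : Fintype R) (_ : Fintype S),
      Fintype.card R = p ^ (36 * m + 7) ∧ Fintype.card S = p ^ (36 * m + 7) ∧
      LocalCubeZero p R ∧ LocalCubeZero p S ∧ IsEmpty (R ≃+* S) ∧
      IsEmpty (ringGraph R ≃g ringGraph S) ∧
      WLEquivalent k (ringGraph R) (ringGraph S) ∧
      IMEquiv p k (ringGraph R) (ringGraph S) ∧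
      (∀ (K : Type) [Field K], (p : K) ≠ 0 → ¬ PCRefutes K (ringGraph R) (ringGraph S) k) ∧
      ¬ PosRefutes (ringGraph R) (ringGraph S) k := by
  have : Fact p.Prime := ⟨hp⟩
  obtain ⟨q, hsym, hE, htr⟩ := exists_expanderS (F := ZMod p) m
  exact main_aux p hsym htr hk hm hE (Module.finrank_fin_fun _)

end Pool.Agent.U279.CR
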