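import Pool.Agent.U279.CR.Ring
import Pool.Agent.U279.CR.SDim
import Pool.Agent.W879.GW.NonIso

/-!
# The two rings are not isomorphic
-/

set_option autoImplicit false
set_option linter.unusedSectionVars false

namespace Pool.Agent.U279.CR

open Module
open Pool.Agent.W879.GW (tot tot_apply tot_single evB evB_apply Expands CW exists_range)

section

variable {F A : Type} [Field F] [AddCommGroup A] [Module F A] {g : ℕ}

/-- The symmetric bilinear map on `A × B` given by a linear map `N`. -/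
def bN (B : Submodule F (Fin g → Dual F A)) (N : A →ₗ[F] (Fin g → Dual F A)) :
    SymBil F (A × B) (Fin g → F) where
  fn := LinearMap.mk₂ F (fun u v => TS N u.1 v.1 + (evB (u.2 : Fin g → Dual F A) v.1 +
      evB (v.2 : Fin g → Dual F A) u.1))
    (fun u u' v => by
      simp only [Prod.fst_add, Prod.snd_add, map_add, LinearMap.add_apply, Submodule.coe_add]
      abel)
    (fun a u v => by
      simp only [Prod.smul_fst, Prod.smul_snd, map_smul, LinearMap.smul_apply, Submodule.coe_smul,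
        smul_add])
    (fun u v v' => by
      simp only [Prod.fst_add, Prod.snd_add, map_add, LinearMap.add_apply, Submodule.coe_add]
      abel)
    (fun a u v => by
      simp only [Prod.smul_fst, Prod.smul_snd, map_smul, LinearMap.smul_apply, Submodule.coe_smul,
        smul_add])
  symm u v := by
    funext i
    show N u.1 i v.1 + N v.1 i u.1 + ((u.2 : Fin g → Dual F A) i v.1 +
      (v.2 : Fin g → Dual F A) i u.1) = N v.1 i u.1 + N u.1 i v.1 +
      ((v.2 : Fin g → Dual F A) i u.1 + (u.2 : Fin g → Dual F A) i v.1)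
    ring

theorem bN_apply (B : Submodule F (Fin g → Dual F A)) (N : A →ₗ[F] (Fin g → Dual F A))
    (u v : A × B) : (bN B N).fn u v = TS N u.1 v.1 + (evB (u.2 : Fin g → Dual F A) v.1 +
      evB (v.2 : Fin g → Dual F A) u.1) := rfl

variable {B : Submodule F (Fin g → Dual F A)} {N N' : A →ₗ[F] (Fin g → Dual F A)}

/-- The component in `A`. -/
def xc (a : RE (bN B N)) : A := (vc a).1

/-- The component in `B`. -/
def cc (a : RE (bN B N)) : B := (vc a).2

theorem xc_add (a b : RE (bN B N)) : xc (a + b) = xc a + xc b := rfl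

theorem cc_add (a b : RE (bN B N)) : cc (a + b) = cc a + cc b := rfl

theorem RE_ext4 {x y : RE (bN B N)} (h1 : fc x = fc y) (h2 : xc x = xc y) (h3 : cc x = cc y)
    (h4 : zc x = zc y) : x = y := RE_ext h1 (Prod.ext h2 h3) h4

end

section

variable {p : ℕ} [Fact p.Prime] {A : Type} [AddCommGroup A] [Module (ZMod p) A] [Finite A]
  {g : ℕ} {q : Fin g → (Dual (ZMod p) A →ₗ[ZMod p] A)}
  {B : Submodule (ZMod p) (Fin g → Dual (ZMod p) A)}
  {N N' : A →ₗ[ZMod p] (Fin g → Dual (ZMod p) A)}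

/-- The elements of `B × Γ`. -/
def el (B : Submodule (ZMod p) (Fin g → Dual (ZMod p) A))
    (N : A →ₗ[ZMod p] (Fin g → Dual (ZMod p) A)) (u : B × (Fin g → ZMod p)) : RE (bN B N) :=
  mk (bN B N) 0 (0, u.1) u.2

theorem el_add (u v : B × (Fin g → ZMod p)) : el B N (u + v) = el B N u + el B N v := by
  refine RE_ext4 ?_ ?_ ?_ ?_
  · show (0 : ZMod p) = 0 + 0
    rw [add_zero]
  · show (0 : A) = 0 + 0
    rw [add_zero]
  · rfl
  · rfl

theorem el_mul (u v : B × (Fin g → ZMod p)) : el B N u * el B N v = 0 := by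
  refine RE_ext ?_ ?_ ?_
  · show (0 : ZMod p) * 0 = 0
    rw [mul_zero]
  · show (0 : ZMod p) • (((0 : A), v.1) : A × B) + (0 : ZMod p) • ((0 : A), u.1) = 0
    rw [zero_smul, zero_smul, add_zero]
  · show (0 : ZMod p) • v.2 + (0 : ZMod p) • u.2 + (bN B N).fn (0, u.1) (0, v.1) = 0
    rw [zero_smul, zero_smul, bN_apply]
    simp

/-- The map from `B × Γ` to `A`. -/
def lam (θ : RE (bN B N) ≃+* RE (bN B N')) (u : B × (Fin g → ZMod p)) : A := xc (θ (el B N u))

theorem lam_add (θ : RE (bN B N) ≃+* RE (bN B N')) (u v : B × (Fin g → ZMod p)) :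
    lam θ (u + v) = lam θ u + lam θ v := by
  unfold lam
  rw [el_add, map_add, xc_add]

theorem fc_map (θ : RE (bN B N) ≃+* RE (bN B N')) {x : RE (bN B N)} (h : fc x = 0) :
    fc (θ x) = 0 := by
  by_contra hne
  have h1 : IsUnit (θ x) := (isUnit_iff _).2 hne
  have h2 : IsUnit x := (MulEquiv.isUnit_map θ).1 h1
  exact (isUnit_iff x).1 h2 h

theorem lam_zero (hsym : ∀ (i : Fin g) (φ ψ : Dual (ZMod p) A), ψ (q i φ) = φ (q i ψ))
    {m : ℕ} (hE : Expands q m) (hg : 2 ≤ g)
    (ha : finrank (ZMod p) A < (g - 1) * (2 * m)) (hB : B = LinearMap.ker (tot q))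
    (θ : RE (bN B N) ≃+* RE (bN B 0)) (u : B × (Fin g → ZMod p)) : lam θ u = 0 := by
  classical
  by_contra hne
  have : FiniteDimensional (ZMod p) A := Module.Finite.of_finite
  have : Finite (Dual (ZMod p) A) := Module.finite_of_finite (ZMod p)
  have : Finite (Fin g → Dual (ZMod p) A) := inferInstance
  have : Finite B := inferInstance
  obtain ⟨W, hWmem, h6'⟩ := exists_range (p := p) A (lam θ) (lam_add θ)
  have hW : W ≠ ⊥ := by
    intro h
    have h1 : lam θ u ∈ W := (hWmem _).2 ⟨u, rfl⟩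
    rw [h, Submodule.mem_bot] at h1
    exact hne h1
  have hdim := dim_ineqS hsym hE hg ha W hW
  rw [← hB] at hdim
  have hfc : ∀ v, fc (θ (el B N v)) = 0 := fun v => fc_map θ rfl
  -- the kernel
  have hCW : ∀ v, lam θ v = 0 → ((cc (θ (el B N v)) : B) :
      Fin g → Dual (ZMod p) A) ∈ (B ⊓ CW W : Submodule (ZMod p) (Fin g → Dual (ZMod p) A)) := by
    intro v hv
    refine ⟨(cc _).2, ?_⟩
    intro i x hx
    obtain ⟨w, hw⟩ := (hWmem x).1 hx
    have hv0 : xc (θ (el B N v)) = 0 := hv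
    have hw0 : xc (θ (el B N w)) = x := hw
    have h2 := congrArg θ (el_mul (N := N) v w)
    rw [map_mul, map_zero] at h2
    have h3 := congrArg zc h2
    rw [zc_mul, hfc, hfc, zero_smul, zero_smul, zc_zero, bN_apply] at h3
    have h4 := congrFun h3 i
    have h5 : (0 : ZMod p) + 0 + ((0 : ZMod p) + 0 + (((cc (θ (el B N v)) : B) :
      Fin g → Dual (ZMod p) A) i (xc (θ (el B N w))) + ((cc (θ (el B N w)) : B) :
      Fin g → Dual (ZMod p) A) i (xc (θ (el B N v))))) = 0 := h4
    rw [hv0, hw0, map_zero] at h5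
    linear_combination h5
  let κ : {v // lam θ v = 0} → (B ⊓ CW W : Submodule (ZMod p) (Fin g → Dual (ZMod p) A)) ×
      (Fin g → ZMod p) := fun v => (⟨_, hCW v.1 v.2⟩, zc (θ (el B N v.1)))
  have hκ : Function.Injective κ := by
    intro v w hvw
    have h1 : ((cc (θ (el B N v.1)) : B) : Fin g → Dual (ZMod p) A) =
        ((cc (θ (el B N w.1)) : B) : Fin g → Dual (ZMod p) A) :=
      congrArg (fun z => ((z.1 : (B ⊓ CW W : Submodule (ZMod p) (Fin g → Dual (ZMod p) A))) :
        Fin g → Dual (ZMod p) A)) hvw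
    have h2 : zc (θ (el B N v.1)) = zc (θ (el B N w.1)) := congrArg (fun z => z.2) hvw
    have hv0 : xc (θ (el B N v.1)) = 0 := v.2
    have hw0 : xc (θ (el B N w.1)) = 0 := w.2
    have h3 : θ (el B N v.1) = θ (el B N w.1) :=
      RE_ext4 ((hfc _).trans (hfc _).symm) (hv0.trans hw0.symm) (Subtype.ext h1) h2
    have h4 := θ.injective h3
    have h5 := congrArg cc h4
    have h6 := congrArg zc h4
    exact Subtype.ext (Prod.ext h5 h6)
  have hcard : Nat.card {v // lam θ v = 0} ≤
      Nat.card (B ⊓ CW W : Submodule (ZMod p) (Fin g → Dual (ZMod p) A)) *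
        Nat.card (Fin g → ZMod p) := by
    rw [← Nat.card_prod]
    exact Nat.card_le_card_of_injective κ hκ
  have h6 : Nat.card {v // lam θ v = 0} * Nat.card W = Nat.card B * Nat.card (Fin g → ZMod p) := by
    rw [h6', Nat.card_prod]
  have h7 : Nat.card W = p ^ finrank (ZMod p) W := by
    rw [Module.natCard_eq_pow_finrank (K := ZMod p), Nat.card_zmod]
  have h8 : Nat.card B = p ^ finrank (ZMod p) B := by
    rw [Module.natCard_eq_pow_finrank (K := ZMod p), Nat.card_zmod]
  have h9 : Nat.card (B ⊓ CW W : Submodule (ZMod p) (Fin g → Dual (ZMod p) A)) =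
      p ^ finrank (ZMod p) (B ⊓ CW W : Submodule (ZMod p) (Fin g → Dual (ZMod p) A)) := by
    rw [Module.natCard_eq_pow_finrank (K := ZMod p), Nat.card_zmod]
  have hp1 : 1 < p := (Fact.out : p.Prime).one_lt
  have hΓ : 0 < Nat.card (Fin g → ZMod p) := Nat.card_pos
  have h10 : Nat.card B ≤ Nat.card (B ⊓ CW W : Submodule (ZMod p) (Fin g → Dual (ZMod p) A)) *
      Nat.card W := by
    refine Nat.le_of_mul_le_mul_right ?_ hΓ
    rw [← h6]
    calc Nat.card {v // lam θ v = 0} * Nat.card W ≤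
        (Nat.card (B ⊓ CW W : Submodule (ZMod p) (Fin g → Dual (ZMod p) A)) *
          Nat.card (Fin g → ZMod p)) * Nat.card W := Nat.mul_le_mul_right _ hcard
      _ = _ := by ring
  rw [h7, h8, h9, ← pow_add, Nat.pow_le_pow_iff_right hp1] at h10
  omega

theorem not_iso (hsym : ∀ (i : Fin g) (φ ψ : Dual (ZMod p) A), ψ (q i φ) = φ (q i ψ))
    (htr : ∀ (i : Fin g) (N : A →ₗ[ZMod p] Dual (ZMod p) A), (∀ x y, N x y + N y x = 0) →
      LinearMap.trace (ZMod p) A (q i ∘ₗ N) = 0)
    {m : ℕ} (hE : Expands q m) (hg : 2 ≤ g)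
    (ha : finrank (ZMod p) A < (g - 1) * (2 * m)) (hB : B = LinearMap.ker (tot q))
    (φ₀ : Dual (ZMod p) A) (c₀ : Fin g → Dual (ZMod p) A) (h0 : φ₀ (tot q c₀) ≠ 0) :
    IsEmpty (RE (bN B (φ₀.smulRight c₀)) ≃+* RE (bN B 0)) := by
  refine ⟨fun θ => ?_⟩
  have : FiniteDimensional (ZMod p) A := Module.Finite.of_finite
  -- the complement
  let e0 : A → RE (bN B (0 : A →ₗ[ZMod p] (Fin g → Dual (ZMod p) A))) :=
    fun x => mk _ 0 (x, 0) 0
  have he0 : ∀ x y, e0 (x + y) = e0 x + e0 y := by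
    intro x y
    refine RE_ext4 ?_ rfl ?_ ?_
    · show (0 : ZMod p) = 0 + 0
      rw [add_zero]
    · show (0 : B) = 0 + 0
      rw [add_zero]
    · show (0 : Fin g → ZMod p) = 0 + 0
      rw [add_zero]
  have he0m : ∀ x y, e0 x * e0 y = 0 := by
    intro x y
    refine RE_ext ?_ ?_ ?_
    · show (0 : ZMod p) * 0 = 0
      rw [mul_zero]
    · show (0 : ZMod p) • ((y, 0) : A × B) + (0 : ZMod p) • ((x, 0) : A × B) = 0
      rw [zero_smul, zero_smul, add_zero]
    · show (0 : ZMod p) • (0 : Fin g → ZMod p) + (0 : ZMod p) • (0 : Fin g → ZMod p) +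
        (bN B 0).fn (x, 0) (y, 0) = 0
      rw [bN_apply]
      simp
  let e : A → RE (bN B (φ₀.smulRight c₀)) := fun x => θ.symm (e0 x)
  have he : ∀ x y, e (x + y) = e x + e y := by
    intro x y
    show θ.symm _ = θ.symm _ + θ.symm _
    rw [← map_add, he0]
  have hem : ∀ x y, e x * e y = 0 := by
    intro x y
    show θ.symm _ * θ.symm _ = 0
    rw [← map_mul, he0m, map_zero]
  have hef : ∀ x, fc (e x) = 0 := fun x => fc_map θ.symm rfl
  let a1 : A →+ A := AddMonoidHom.mk' (fun x => xc (e x)) fun x y => by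
    rw [he, xc_add]
  let b1 : A →+ B := AddMonoidHom.mk' (fun x => cc (e x)) fun x y => by
    rw [he, cc_add]
  have hinj : Function.Injective a1 := by
    rw [injective_iff_map_eq_zero]
    intro x hx
    have h1 : e x = el B _ (cc (e x), zc (e x)) :=
      RE_ext4 (hef x) hx rfl rfl
    have h2 := lam_zero hsym hE hg ha hB θ (cc (e x), zc (e x))
    have h3 : xc (θ (e x)) = 0 := by
      rw [h1]
      exact h2
    have h4 : θ (e x) = e0 x := θ.apply_symm_apply _
    rw [h4] at h3
    exact h3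
  have hrel : ∀ x y, TS (φ₀.smulRight c₀) (a1 x) (a1 y) +
      (evB ((b1 x : B) : Fin g → Dual (ZMod p) A) (a1 y) +
      evB ((b1 y : B) : Fin g → Dual (ZMod p) A) (a1 x)) = 0 := by
    intro x y
    have h1 := congrArg zc (hem x y)
    rw [zc_mul, hef, hef, zero_smul, zero_smul, zc_zero, bN_apply, add_zero, zero_add] at h1
    exact h1
  -- the inverse of `a1`
  have hbij : Function.Bijective a1 := Finite.injective_iff_bijective.1 hinj
  let a2 : A ≃+ A := AddEquiv.ofBijective a1 hbij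
  have ha2 : ∀ x, a1 (a2.symm x) = x := fun x => a2.apply_symm_apply x
  let M : A →+ (Fin g → Dual (ZMod p) A) := AddMonoidHom.mk'
    (fun x => - ((b1 (a2.symm x) : B) : Fin g → Dual (ZMod p) A)) fun x y => by
      rw [map_add, map_add, Submodule.coe_add, neg_add]
  have hM : ∀ x, tot q (M x) = 0 := by
    intro x
    have h1 : M x ∈ B := B.neg_mem (b1 (a2.symm x)).2
    rw [hB] at h1
    exact LinearMap.mem_ker.1 h1
  refine obstructionS htr (M.toZModLinearMap p) hM φ₀ c₀ h0 ?_
  refine LinearMap.ext fun x => LinearMap.ext fun y => funext fun i => ?_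
  have h1 := congrFun (hrel (a2.symm x) (a2.symm y)) i
  rw [ha2, ha2] at h1
  have h2 : TS (φ₀.smulRight c₀) x y i + (((b1 (a2.symm x) : B) : Fin g → Dual (ZMod p) A) i y +
    ((b1 (a2.symm y) : B) : Fin g → Dual (ZMod p) A) i x) = 0 := h1
  rw [TS_apply]
  show -(((b1 (a2.symm x) : B) : Fin g → Dual (ZMod p) A) i y) +
    -(((b1 (a2.symm y) : B) : Fin g → Dual (ZMod p) A) i x) = TS (φ₀.smulRight c₀) x y i
  linear_combination -h2

end

end Pool.Agent.U279.CR
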