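import Mathlib

/-!
# The commutative local ring of a symmetric bilinear map
-/

set_option autoImplicit false
set_option linter.unusedSectionVars false

namespace Pool.Agent.U279.CR

/-- A symmetric bilinear map. -/
structure SymBil (F V Γ : Type) [Field F] [AddCommGroup V] [Module F V] [AddCommGroup Γ]
    [Module F Γ] where
  /-- the map -/
  fn : V →ₗ[F] V →ₗ[F] Γ
  symm : ∀ u v, fn u v = fn v u

/-- The underlying set of the ring of the symmetric bilinear map `β`. -/
def RE {F V Γ : Type} [Field F] [AddCommGroup V] [Module F V] [AddCommGroup Γ] [Module F Γ]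
    (_ : SymBil F V Γ) : Type := F × V × Γ

section

variable {F V Γ : Type} [Field F] [AddCommGroup V] [Module F V] [AddCommGroup Γ] [Module F Γ]
  {β : SymBil F V Γ}

/-- The element with the given components. -/
def mk (β : SymBil F V Γ) (a : F) (v : V) (z : Γ) : RE β := (a, v, z)

/-- The component in `F`. -/
def fc (x : RE β) : F := x.1

/-- The component in `V`. -/
def vc (x : RE β) : V := x.2.1

/-- The component in `Γ`. -/
def zc (x : RE β) : Γ := x.2.2

@[simp] theorem fc_mk (a : F) (v : V) (z : Γ) : fc (mk β a v z) = a := rfl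
@[simp] theorem vc_mk (a : F) (v : V) (z : Γ) : vc (mk β a v z) = v := rfl
@[simp] theorem zc_mk (a : F) (v : V) (z : Γ) : zc (mk β a v z) = z := rfl

theorem RE_ext {x y : RE β} (h1 : fc x = fc y) (h2 : vc x = vc y) (h3 : zc x = zc y) : x = y :=
  Prod.ext h1 (Prod.ext h2 h3)

instance : AddCommGroup (RE β) := inferInstanceAs (AddCommGroup (F × V × Γ))

@[simp] theorem fc_add (x y : RE β) : fc (x + y) = fc x + fc y := rfl
@[simp] theorem vc_add (x y : RE β) : vc (x + y) = vc x + vc y := rfl
@[simp] theorem zc_add (x y : RE β) : zc (x + y) = zc x + zc y := rfl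
@[simp] theorem fc_zero : fc (0 : RE β) = 0 := rfl
@[simp] theorem vc_zero : vc (0 : RE β) = 0 := rfl
@[simp] theorem zc_zero : zc (0 : RE β) = 0 := rfl

instance : Mul (RE β) := ⟨fun x y => mk β (fc x * fc y) (fc x • vc y + fc y • vc x)
  (fc x • zc y + fc y • zc x + β.fn (vc x) (vc y))⟩

instance : One (RE β) := ⟨mk β 1 0 0⟩

@[simp] theorem fc_mul (x y : RE β) : fc (x * y) = fc x * fc y := rfl
@[simp] theorem vc_mul (x y : RE β) : vc (x * y) = fc x • vc y + fc y • vc x := rfl
@[simp] theorem zc_mul (x y : RE β) :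
    zc (x * y) = fc x • zc y + fc y • zc x + β.fn (vc x) (vc y) := rfl
@[simp] theorem fc_one : fc (1 : RE β) = 1 := rfl
@[simp] theorem vc_one : vc (1 : RE β) = 0 := rfl
@[simp] theorem zc_one : zc (1 : RE β) = 0 := rfl

theorem mul_comm' (x y : RE β) : x * y = y * x := by
  refine RE_ext ?_ ?_ ?_
  · rw [fc_mul, fc_mul, mul_comm]
  · rw [vc_mul, vc_mul, add_comm]
  · rw [zc_mul, zc_mul, β.symm (vc x) (vc y), add_comm (fc x • zc y)]

theorem mul_assoc' (x y z : RE β) : x * y * z = x * (y * z) := by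
  refine RE_ext ?_ ?_ ?_
  · simp only [fc_mul]
    ring
  · simp only [vc_mul, fc_mul]
    module
  · simp only [zc_mul, vc_mul, fc_mul, map_add, map_smul, LinearMap.add_apply,
      LinearMap.smul_apply]
    module

theorem left_distrib' (x y z : RE β) : x * (y + z) = x * y + x * z := by
  refine RE_ext ?_ ?_ ?_
  · simp only [fc_mul, fc_add]
    ring
  · simp only [vc_mul, vc_add, fc_add]
    module
  · simp only [zc_mul, zc_add, vc_add, fc_add, map_add]
    module

theorem one_mul' (x : RE β) : 1 * x = x := by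
  refine RE_ext ?_ ?_ ?_
  · simp
  · simp
  · simp

instance : CommRing (RE β) :=
  { (inferInstance : AddCommGroup (RE β)) with
    mul := fun x y => x * y
    one := 1
    left_distrib := left_distrib'
    right_distrib := fun x y z => by
      rw [mul_comm' (x + y) z, left_distrib', mul_comm' z x, mul_comm' z y]
    zero_mul := fun x => by
      refine RE_ext ?_ ?_ ?_
      · simp
      · simp
      · simp
    mul_zero := fun x => by
      refine RE_ext ?_ ?_ ?_
      · simp
      · simp
      · simp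
    mul_assoc := mul_assoc'
    one_mul := one_mul'
    mul_one := fun x => by rw [mul_comm', one_mul']
    mul_comm := mul_comm' }

noncomputable instance [Fintype F] [Fintype V] [Fintype Γ] : Fintype (RE β) :=
  inferInstanceAs (Fintype (F × V × Γ))

theorem card_RE [Fintype F] [Fintype V] [Fintype Γ] :
    Fintype.card (RE β) = Fintype.card F * (Fintype.card V * Fintype.card Γ) := by
  have h : Fintype.card (RE β) = Fintype.card (F × V × Γ) := rfl
  rw [h, Fintype.card_prod, Fintype.card_prod]

/-- The ring homomorphism to `F`. -/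
def fcHom (β : SymBil F V Γ) : RE β →+* F where
  toFun := fc
  map_one' := rfl
  map_mul' _ _ := rfl
  map_zero' := rfl
  map_add' _ _ := rfl

theorem isUnit_iff (x : RE β) : IsUnit x ↔ fc x ≠ 0 := by
  constructor
  · intro h
    exact (h.map (fcHom β)).ne_zero
  · intro h
    refine IsUnit.of_mul_eq_one (mk β (fc x)⁻¹ (-((fc x)⁻¹ * (fc x)⁻¹) • vc x)
      (-((fc x)⁻¹ * (fc x)⁻¹) • zc x + ((fc x)⁻¹ * (fc x)⁻¹ * (fc x)⁻¹) •
        β.fn (vc x) (vc x))) ?_
    have h1 : fc x * (fc x)⁻¹ = 1 := mul_inv_cancel₀ h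
    refine RE_ext ?_ ?_ ?_
    · simp [h]
    · simp only [vc_mul, fc_mk, vc_mk, vc_one]
      rw [smul_smul, ← add_smul]
      have h2 : fc x * -((fc x)⁻¹ * (fc x)⁻¹) + (fc x)⁻¹ = 0 := by
        linear_combination (-(fc x)⁻¹) * h1
      rw [h2, zero_smul]
    · simp only [zc_mul, fc_mk, vc_mk, zc_mk, zc_one, map_smul, smul_add, smul_smul]
      have h2 : fc x * -((fc x)⁻¹ * (fc x)⁻¹) = - (fc x)⁻¹ := by
        linear_combination (-(fc x)⁻¹) * h1
      have h3 : fc x * ((fc x)⁻¹ * (fc x)⁻¹ * (fc x)⁻¹) = (fc x)⁻¹ * (fc x)⁻¹ := by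
        linear_combination ((fc x)⁻¹ * (fc x)⁻¹) * h1
      rw [h2, h3]
      module

theorem isLocalRing (β : SymBil F V Γ) : IsLocalRing (RE β) := by
  have : Nontrivial (RE β) := ⟨0, 1, fun h => zero_ne_one (α := F) (congrArg fc h)⟩
  refine IsLocalRing.of_nonunits_add fun x y hx hy => ?_
  have hx' : fc x = 0 := by
    by_contra h
    exact hx ((isUnit_iff x).2 h)
  have hy' : fc y = 0 := by
    by_contra h
    exact hy ((isUnit_iff y).2 h)
  intro h
  apply (isUnit_iff _).1 h
  rw [fc_add, hx', hy', add_zero]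

theorem cube_zero (x y z : RE β) (hx : ¬ IsUnit x) (hy : ¬ IsUnit y) (hz : ¬ IsUnit z) :
    x * y * z = 0 := by
  have hx' : fc x = 0 := by
    by_contra h
    exact hx ((isUnit_iff x).2 h)
  have hy' : fc y = 0 := by
    by_contra h
    exact hy ((isUnit_iff y).2 h)
  have hz' : fc z = 0 := by
    by_contra h
    exact hz ((isUnit_iff z).2 h)
  refine RE_ext ?_ ?_ ?_
  · simp [hx']
  · simp [hx', hy', hz']
  · simp [hx', hy', hz']

theorem charP (β : SymBil F V Γ) (p : ℕ) [CharP F p] : CharP (RE β) p := by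
  have h0 : ∀ n : ℕ, fc ((n : ℕ) : RE β) = (n : F) := fun n => map_natCast (fcHom β) n
  have h1 : ∀ n : ℕ, vc ((n : ℕ) : RE β) = 0 := by
    intro n
    induction n with
    | zero => simp
    | succ n ih => rw [Nat.cast_succ, vc_add, ih, vc_one, add_zero]
  have h2 : ∀ n : ℕ, zc ((n : ℕ) : RE β) = 0 := by
    intro n
    induction n with
    | zero => simp
    | succ n ih => rw [Nat.cast_succ, zc_add, ih, zc_one, add_zero]
  refine ⟨fun n => ?_⟩
  rw [← CharP.cast_eq_zero_iff F p n]
  constructor
  · intro h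
    rw [← h0, h, fc_zero]
  · intro h
    refine RE_ext ?_ ?_ ?_
    · rw [h0, h, fc_zero]
    · rw [h1, vc_zero]
    · rw [h2, zc_zero]

end

end Pool.Agent.U279.CR
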